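import Pool.Agent.helper11.RPQ.SpecG
import Pool.Agent.helper62.RS.All

/-!
# RPQ (MP_07c750), row LDV: large deviations of the geodesic averages
-/

set_option autoImplicit false

open scoped MatrixGroups ContDiff Topology UpperHalfPlane ComplexConjugate
open UpperHalfPlane MeasureTheory Filter Set

namespace Pool.Agent.RPQ

open Pool.Agent.RS
open Pool.Agent.MS (BA BB st pf gk Dk amk)

/-- one sided bound: the exponential moment bound gives a large deviation estimate -/
theorem LDV_one (Γ : Subgroup SL(2, ℝ)) (F : Set ℍ) (h : ℍ → ℝ) (e : ℝ) (hΓ : QU.SurfaceGroup Γ) (hF : QU.NiceDom Γ F)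
    (hh : QU.Inv Γ h) (he : 0 < e) : ∃ θ C : ℝ, 0 < θ ∧ 0 < C ∧ ∀ T : ℝ, 0 < T →
      mG (dG F ∩ {g | e ≤ avh h T g - mean F h}) ≤ ENNReal.ofReal (C * Real.exp (-(θ * T))) := by
  obtain ⟨θ, C, hθ, hC, hQ⟩ := A_QEX Γ F h (e / 2) hΓ hF hh (half_pos he)
  obtain ⟨⟨hdm, hdv, hdt, -⟩, hG⟩ := A_GFD Γ F hΓ hF
  obtain ⟨m, hm⟩ := (QU.A_BDD Γ F h hΓ hF hh).1
  refine ⟨θ * e / 2, C * (volume F).toReal + 1, by positivity, by positivity, fun T hT => ?_⟩
  have h1 := QEF_iR A_GLC A_GFD Γ F hΓ hF h hh θ (C * Real.exp (θ * (mean F h + e / 2) * T)) T hT.le hθ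
    (fun g => hQ T g hT.le)
  set G : SL(2, ℝ) → ℝ := fun g => Real.exp (∫ t in (0 : ℝ)..T, θ * h ((g * aM t) • I)) with hGdef
  have i2 := A_GLC.2.1
  have hGc : Continuous G := QEF_cont A_GLC h hh.1 θ T
  have f1 : IsFiniteMeasure (mG.restrict (dG F)) := ⟨by rw [Measure.restrict_apply_univ]; exact hdt⟩
  have hGb : ∀ g, ‖G g‖ ≤ Real.exp (θ * m * T) := by
    intro g
    rw [Real.norm_eq_abs, abs_of_pos (Real.exp_pos _)]
    refine Real.exp_le_exp.mpr ?_
    have h1 : ‖∫ t in (0 : ℝ)..T, θ * h ((g * aM t) • I)‖ ≤ (θ * m) * |T - 0| := by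
      refine intervalIntegral.norm_integral_le_of_norm_le_const (fun t _ => ?_)
      rw [norm_mul, Real.norm_eq_abs, Real.norm_eq_abs, abs_of_pos hθ]
      exact mul_le_mul_of_nonneg_left (hm _) hθ.le
    rw [sub_zero, abs_of_pos hT] at h1
    exact (Real.le_norm_self _).trans h1
  have hGint : Integrable G (mG.restrict (dG F)) :=
    Integrable.of_bound hGc.aestronglyMeasurable (Real.exp (θ * m * T)) (Eventually.of_forall hGb)
  -- Chebyshev
  have hsub : {g : SL(2, ℝ) | e ≤ avh h T g - mean F h} ⊆ {g | Real.exp (θ * (mean F h + e) * T) ≤ G g} := by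
    intro g hg
    have hg' : e ≤ avh h T g - mean F h := hg
    have h2 : T⁻¹ * (∫ s in (0 : ℝ)..T, h ((g * aM s) • I)) = avh h T g := rfl
    have h3 : (∫ s in (0 : ℝ)..T, h ((g * aM s) • I)) = T * avh h T g := by
      rw [← h2, ← mul_assoc, mul_inv_cancel₀ hT.ne', one_mul]
    change Real.exp (θ * (mean F h + e) * T) ≤ Real.exp (∫ t in (0 : ℝ)..T, θ * h ((g * aM t) • I))
    refine Real.exp_le_exp.mpr ?_
    rw [intervalIntegral.integral_const_mul, h3]
    have h4 : mean F h + e ≤ avh h T g := by linarith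
    have h5 : θ * (mean F h + e) * T ≤ θ * avh h T g * T :=
      mul_le_mul_of_nonneg_right (mul_le_mul_of_nonneg_left h4 hθ.le) hT.le
    linarith
  have hcheb := mul_meas_ge_le_integral_of_nonneg (μ := mG.restrict (dG F)) (f := G)
    (Eventually.of_forall (fun g => (Real.exp_pos _).le)) hGint (Real.exp (θ * (mean F h + e) * T))
  have hms : MeasurableSet {g : SL(2, ℝ) | Real.exp (θ * (mean F h + e) * T) ≤ G g} :=
    measurableSet_le measurable_const hGc.measurable
  have h6 : mG (dG F ∩ {g | e ≤ avh h T g - mean F h}) ≤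
      (mG.restrict (dG F)) {g | Real.exp (θ * (mean F h + e) * T) ≤ G g} := by
    rw [Measure.restrict_apply hms, inter_comm]
    exact measure_mono (inter_subset_inter_left _ hsub)
  refine h6.trans ?_
  have h7 : ((mG.restrict (dG F)) {g | Real.exp (θ * (mean F h + e) * T) ≤ G g}).toReal ≤
      (C * (volume F).toReal + 1) * Real.exp (-(θ * e / 2 * T)) := by
    have h8 : Real.exp (θ * (mean F h + e) * T) *
        ((mG.restrict (dG F)) {g | Real.exp (θ * (mean F h + e) * T) ≤ G g}).toReal ≤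
        C * Real.exp (θ * (mean F h + e / 2) * T) * (volume F).toReal := by
      refine hcheb.trans ?_
      exact h1
    have h9 : C * Real.exp (θ * (mean F h + e / 2) * T) * (volume F).toReal ≤
        Real.exp (θ * (mean F h + e) * T) * ((C * (volume F).toReal + 1) * Real.exp (-(θ * e / 2 * T))) := by
      have h10 : Real.exp (θ * (mean F h + e / 2) * T) = Real.exp (θ * (mean F h + e) * T) * Real.exp (-(θ * e / 2 * T)) := by
        rw [← Real.exp_add]
        congr 1
        ring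
      rw [h10]
      have h11 : 0 < Real.exp (θ * (mean F h + e) * T) * Real.exp (-(θ * e / 2 * T)) := by positivity
      nlinarith
    exact le_of_mul_le_mul_left (h8.trans h9) (Real.exp_pos _)
  rw [← ENNReal.ofReal_toReal (measure_ne_top (mG.restrict (dG F)) {g | Real.exp (θ * (mean F h + e) * T) ≤ G g})]
  exact ENNReal.ofReal_le_ofReal h7

theorem LDV_cont (h : ℍ → ℝ) (hh : Continuous h) (T : ℝ) : Continuous (avh h T) := by
  have := A_GLC.2.1
  have h1 : Continuous (fun p : SL(2, ℝ) × ℝ => (p.1 * aM p.2) • I) :=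
    isProperMap_smul_I.continuous.comp (continuous_fst.mul (A_GLC.2.2.2.1.comp continuous_snd))
  have h2 : Continuous (Function.uncurry fun (g : SL(2, ℝ)) (t : ℝ) => h ((g * aM t) • I)) := hh.comp h1
  exact continuous_const.mul (intervalIntegral.continuous_parametric_intervalIntegral_of_continuous' h2 0 T)

/-- **Row LDV** -/
theorem LDV_proof : LDV_stmt := by
  intro Γ F h e hΓ hF hh _ he
  have hn : QU.Inv Γ (fun z => -h z) := ⟨hh.1.neg, fun γ z => by
    change -h (γ • z) = -h z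
    rw [hh.2 γ z]⟩
  obtain ⟨θ1, C1, hθ1, hC1, H1⟩ := LDV_one Γ F h e hΓ hF hh he
  obtain ⟨θ2, C2, hθ2, hC2, H2⟩ := LDV_one Γ F (fun z => -h z) e hΓ hF hn he
  have i2 := A_GLC.2.1
  have hav : ∀ (T : ℝ) (g : SL(2, ℝ)), avh (fun z => -h z) T g = -avh h T g := by
    intro T g
    change T⁻¹ * (∫ s in (0 : ℝ)..T, -h ((g * aM s) • I)) = -(T⁻¹ * ∫ s in (0 : ℝ)..T, h ((g * aM s) • I))
    rw [intervalIntegral.integral_neg]
    ring
  have hme : mean F (fun z => -h z) = -mean F h := by
    change (∫ z in F, -h z) / (volume F).toReal = -((∫ z in F, h z) / (volume F).toReal)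
    rw [integral_neg]
    ring
  refine ⟨min θ1 θ2, C1 + C2, lt_min hθ1 hθ2, by positivity, fun T hT => ⟨?_, ?_, ?_⟩⟩
  · change MeasurableSet {g : SL(2, ℝ) | e ≤ |avh h T g - mean F h|}
    exact measurableSet_le measurable_const (((LDV_cont h hh.1 T).sub continuous_const).abs).measurable
  · intro γ g
    have h1 : avh h T ((γ : SL(2, ℝ)) * g) = avh h T g := by
      have h1 : ∀ t : ℝ, h ((((γ : SL(2, ℝ)) * g) * aM t) • I) = h ((g * aM t) • I) := by
        intro t
        rw [mul_assoc, mul_smul]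
        exact hh.2 γ _
      change T⁻¹ * (∫ s in (0 : ℝ)..T, h ((((γ : SL(2, ℝ)) * g) * aM s) • I)) = T⁻¹ * ∫ s in (0 : ℝ)..T, h ((g * aM s) • I)
      simp only [h1]
    change e ≤ |avh h T ((γ : SL(2, ℝ)) * g) - mean F h| ↔ e ≤ |avh h T g - mean F h|
    rw [h1]
  · have hsub : dG F ∩ FB F h e T ⊆ (dG F ∩ {g | e ≤ avh h T g - mean F h}) ∪
        (dG F ∩ {g | e ≤ avh (fun z => -h z) T g - mean F (fun z => -h z)}) := by
      rintro g ⟨hg1, hg2⟩
      have hg3 : e ≤ |avh h T g - mean F h| := hg2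
      rcases le_abs.mp hg3 with h3 | h3
      · exact Or.inl ⟨hg1, h3⟩
      · refine Or.inr ⟨hg1, ?_⟩
        change e ≤ avh (fun z => -h z) T g - mean F (fun z => -h z)
        rw [hav, hme]
        linarith
    refine (measure_mono hsub).trans ((measure_union_le _ _).trans ((add_le_add (H1 T hT) (H2 T hT)).trans ?_))
    rw [← ENNReal.ofReal_add (by positivity) (by positivity)]
    refine ENNReal.ofReal_le_ofReal ?_
    have e1 : Real.exp (-(θ1 * T)) ≤ Real.exp (-(min θ1 θ2 * T)) := by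
      refine Real.exp_le_exp.mpr (neg_le_neg (mul_le_mul_of_nonneg_right (min_le_left _ _) hT.le))
    have e2 : Real.exp (-(θ2 * T)) ≤ Real.exp (-(min θ1 θ2 * T)) := by
      refine Real.exp_le_exp.mpr (neg_le_neg (mul_le_mul_of_nonneg_right (min_le_right _ _) hT.le))
    nlinarith

end Pool.Agent.RPQ
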