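import Pool.Agent.helper29.RPQ.SpecP
import Pool.Agent.helper97.RS.CV1

/-!
# Row rpq:OVD (MP_07c750): decay of the kernel `gk` away from `b₁₀ = 0`, explicit widths
-/

set_option autoImplicit false

open scoped MatrixGroups ContDiff Topology UpperHalfPlane ComplexConjugate
open UpperHalfPlane MeasureTheory Filter Set

namespace Pool.Agent.RPQ

open Pool.Agent.RS
open Pool.Agent.MS (BA BB st pf gk Dk amk)

theorem OVD_int (v : ℝ) (hv : 0 ≤ v) (F : ℝ → ℂ) (hF : ∀ x, v < |x| → F x = 0) : ∫ x, F x = ∫ x in (-v)..v, F x := by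
  rw [intervalIntegral.integral_of_le (by linarith), ← MeasureTheory.integral_Icc_eq_integral_Ioc]
  refine (setIntegral_eq_integral_of_forall_compl_eq_zero fun x hx => hF x ?_).symm
  by_contra h
  push Not at h
  exact hx (abs_le.1 h)

theorem OVD_out (v : ℝ) (hv : 0 ≤ v) (F : ℝ → ℂ) (hF : ∀ x, v < |x| → F x = 0) (K : ℝ) (hK : ∀ x, |x| ≤ v → ‖F x‖ ≤ K) :
    ‖∫ x, F x‖ ≤ K * (2 * v) := by
  rw [OVD_int v hv F hF]
  have h := intervalIntegral.norm_integral_le_of_norm_le_const (a := -v) (b := v) (f := F) (C := K) ?_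
  · refine h.trans (le_of_eq ?_)
    rw [show v - -v = 2 * v by ring, abs_of_nonneg (by linarith)]
  · intro x hx
    rw [uIoc_of_le (by linarith)] at hx
    exact hK x (abs_le.2 ⟨hx.1.le, hx.2⟩)

theorem OVD_im (k : SL(2, ℝ)) (x τ : ℝ) : (k⁻¹ • pt x τ).im = Real.exp τ / Dk k x τ := by
  have e0 : (k⁻¹ • pt x τ).im = (((k⁻¹ : SL(2, ℝ)) : GL (Fin 2) ℝ) • pt x τ).im := rfl
  rw [e0, UpperHalfPlane.im_smul_eq_div_normSq]
  have h1 : ((pt x τ : ℍ) : ℂ).re = x := rfl
  have h2 : ((pt x τ : ℍ) : ℂ).im = Real.exp τ := rfl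
  have h3 : (pt x τ).im = Real.exp τ := rfl
  have i0 : (k⁻¹ : SL(2, ℝ)).1 1 0 = -k.1 1 0 := by
    rw [Matrix.SpecialLinearGroup.SL2_inv_expl]
    rfl
  have i1 : (k⁻¹ : SL(2, ℝ)).1 1 1 = k.1 0 0 := by
    rw [Matrix.SpecialLinearGroup.SL2_inv_expl]
    rfl
  have e1 : Complex.normSq (denom ((k⁻¹ : SL(2, ℝ)) : GL (Fin 2) ℝ) (pt x τ)) = Dk k x τ := by
    unfold Dk
    rw [show denom ((k⁻¹ : SL(2, ℝ)) : GL (Fin 2) ℝ) (pt x τ) = (((k⁻¹ : SL(2, ℝ)).1 1 0 : ℝ) : ℂ) * ((pt x τ : ℍ) : ℂ) +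
      (((k⁻¹ : SL(2, ℝ)).1 1 1 : ℝ) : ℂ) from rfl]
    rw [i0, i1, Complex.normSq_apply]
    simp only [Complex.add_re, Complex.mul_re, Complex.ofReal_re, Complex.ofReal_im, Complex.add_im, Complex.mul_im, h1, h2]
    rw [show 2 * τ = τ + τ by ring, Real.exp_add]
    ring
  rw [e1, h3]
  simp

theorem OVD_exp : Real.exp (1 / 2) < 1.65 := by
  have h1 := Real.exp_one_lt_d9
  have h2 : Real.exp (1 / 2) * Real.exp (1 / 2) = Real.exp 1 := by
    rw [← Real.exp_add]
    norm_num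
  nlinarith [Real.exp_pos (1 / 2)]

theorem OVD_exp' : 0.606 < Real.exp (-(1 / 2)) := by
  have h1 := OVD_exp
  rw [Real.exp_neg]
  have h0 := Real.exp_pos (1 / 2)
  rw [lt_inv_comm₀ (by norm_num) h0]
  refine h1.trans ?_
  norm_num

/-- the amplitude is nonzero: `c` is not small -/
theorem OVD_c {f : ℍ → ℂ} (hT : ∀ z, f z ≠ 0 → |Real.log z.im| ≤ 1 / 4) (k : SL(2, ℝ)) (hD : ∀ x τ : ℝ, 0 < Dk k x τ) (x0 : ℝ) (hx0 : |x0| ≤ 1 / 4)
    (h0 : |k.1 0 0 - k.1 1 0 * x0| < 1 / 8) (hc : |k.1 1 0| < 1 / 2) (x τ : ℝ) (hx : |x| ≤ 1 / 4) (hτ : |τ| ≤ 1 / 4) :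
    amk f k x τ = 0 := by
  unfold amk
  have hz : f (k⁻¹ • pt x τ) = 0 := by
    by_contra hne
    have h1 := hT _ hne
    rw [OVD_im, Real.log_div (Real.exp_pos τ).ne' (hD x τ).ne', Real.log_exp] at h1
    obtain ⟨h2, h3⟩ := abs_le.1 h1
    obtain ⟨h4, h5⟩ := abs_le.1 hτ
    have h6 : -(1 / 2) ≤ Real.log (Dk k x τ) := by linarith
    have h7 : Real.exp (-(1 / 2)) ≤ Dk k x τ := (Real.le_log_iff_exp_le (hD x τ)).1 h6
    have h8 : |k.1 0 0 - k.1 1 0 * x| ≤ 3 / 8 := by
      have e : k.1 0 0 - k.1 1 0 * x = (k.1 0 0 - k.1 1 0 * x0) + k.1 1 0 * (x0 - x) := by ring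
      rw [e]
      refine (abs_add_le _ _).trans ?_
      rw [abs_mul]
      have h9 : |x0 - x| ≤ 1 / 2 := by
        obtain ⟨a1, a2⟩ := abs_le.1 hx
        obtain ⟨a3, a4⟩ := abs_le.1 hx0
        exact abs_le.2 ⟨by linarith, by linarith⟩
      have h10 : |k.1 1 0| * |x0 - x| ≤ 1 / 2 * (1 / 2) := mul_le_mul hc.le h9 (abs_nonneg _) (by norm_num)
      linarith
    have h11 : (k.1 0 0 - k.1 1 0 * x) ^ 2 ≤ 9 / 64 := by
      rw [← sq_abs]
      nlinarith [abs_nonneg (k.1 0 0 - k.1 1 0 * x)]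
    have h12 : k.1 1 0 ^ 2 ≤ 1 / 4 := by
      rw [← sq_abs]
      nlinarith [abs_nonneg (k.1 1 0)]
    have h13 : Real.exp (2 * τ) ≤ 1.65 := (Real.exp_le_exp.2 (by linarith)).trans OVD_exp.le
    have h14 : Dk k x τ ≤ 9 / 64 + 1 / 4 * 1.65 := by
      unfold Dk
      have : k.1 1 0 ^ 2 * Real.exp (2 * τ) ≤ 1 / 4 * 1.65 := mul_le_mul h12 h13 (Real.exp_pos _).le (by norm_num)
      linarith
    have := OVD_exp'
    norm_num at h14 this
    linarith
  rw [hz, zero_mul]

theorem OVD_proof (hNSM : NSM_stmt) (hAM1 : AM1_stmt) (hAM2 : AM2_stmt) (hGKD : GKD_stmt) (hACM : ACM_stmt) : OVD_stmt := by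
  intro k
  obtain ⟨M1, hM1, hk1⟩ := hAM1 k
  obtain ⟨M2, hM2, hk2⟩ := hAM2 k
  obtain ⟨CN, hCN, hN⟩ := hNSM k (240 * M1)
  obtain ⟨K, hKdef⟩ : ∃ K, K = 4 * M2 * 2 ^ k + 4 * CN * M2 * 1200 ^ k := ⟨_, rfl⟩
  have hK0 : 0 < K := by rw [hKdef]; positivity
  refine ⟨K, hK0, ?_⟩
  intro R A1 A2 m v1 v2 l c1 c2 b hR hA1 hA2 hm hv1 hv1' hv2 hl hl' hc1 hc2
  have hT1 : TB (1 / 4) c1 := hACM.2.2 k A1 m v1 l c1 hv1' hl' hc1
  have hT2 : TB (1 / 4) c2 := hACM.2.2 k A2 m v2 l c2 hv2 hl' hc2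
  obtain ⟨hent, hform⟩ := (hGKD R c1 c2 hT1 hT2).2 b
  obtain ⟨AA, hAA⟩ : ∃ AA, AA = A1 * A2 := ⟨_, rfl⟩
  have hAA0 : 0 ≤ AA := by rw [hAA]; positivity
  obtain ⟨Λ, hΛ⟩ : ∃ Λ, Λ = R * |b.1 1 0| / m := ⟨_, rfl⟩
  have hm0 : 0 < m := by linarith
  have hR0 : 0 < R := by linarith
  have hΛ0 : 0 ≤ Λ := by rw [hΛ]; positivity
  rw [← hΛ, ← hAA]
  by_cases h0 : gk R c1 c2 b = 0
  · rw [h0, norm_zero]
    positivity
  have hE := hent h0
  obtain ⟨hD, hsx, hst, hbox⟩ := hk1 b hE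
  obtain ⟨gx, gt, gs, gb⟩ := hk2 A1 A2 m v1 v2 l c1 c2 b hA1 hA2 hm hv1' hv2 hl' hc1 hc2 hE
  rw [← hAA] at gb
  obtain ⟨c, hc⟩ : ∃ c, c = b.1 1 0 := ⟨_, rfl⟩
  obtain ⟨G, hG⟩ : ∃ G : ℝ → ℝ → ℂ, G = fun x τ => ga c1 c2 b x τ * Complex.exp (((R * Real.log (Dk b x τ) : ℝ) : ℂ) * Complex.I) := ⟨_, rfl⟩
  have hform' : gk R c1 c2 b = ∫ τ : ℝ, ∫ x : ℝ, G x τ := by
    rw [hform, hG]
    rfl
  have hGx : ∀ τ x, v1 < |x| → G x τ = 0 := by
    intro τ x hx
    have h1 : ga c1 c2 b x τ = 0 := by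
      by_contra hne
      exact absurd (gs x τ hne).1 (not_le.2 hx)
    rw [hG]
    simp only
    rw [h1, zero_mul]
  have hGτ : ∀ x τ, l < |τ| → G x τ = 0 := by
    intro x τ hτ
    have h1 : ga c1 c2 b x τ = 0 := by
      by_contra hne
      exact absurd (gs x τ hne).2 (not_le.2 hτ)
    rw [hG]
    simp only
    rw [h1, zero_mul]
  have hGb : ∀ x τ, |x| ≤ v1 → |τ| ≤ l → ‖G x τ‖ ≤ M2 * AA := by
    intro x τ hx hτ
    rw [hG]
    simp only
    rw [norm_mul, Complex.norm_exp_ofReal_mul_I, mul_one]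
    have h1 := (gb x τ (hx.trans hv1') (hτ.trans hl') 0 (Nat.zero_le _)).1
    rw [iteratedDeriv_zero, pow_zero, mul_one] at h1
    exact h1
  have hinner : ∀ τ, l < |τ| → ∫ x, G x τ = 0 := by
    intro τ hτ
    have : (fun x => G x τ) = fun _ => 0 := funext fun x => hGτ x τ hτ
    rw [this, integral_zero]
  have hinner' : ∀ x, v1 < |x| → ∫ τ, G x τ = 0 := by
    intro x hx
    have : (fun τ => G x τ) = fun _ => 0 := funext fun τ => hGx τ x hx
    rw [this, integral_zero]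
  -- the trivial bound
  have hJ0 : ‖∫ τ : ℝ, ∫ x : ℝ, G x τ‖ ≤ 4 * M2 * (AA * v1 * l) := by
    have := OVD_out l hl.le (fun τ => ∫ x : ℝ, G x τ) hinner (M2 * AA * (2 * v1))
      (fun τ hτ => OVD_out v1 hv1.le (fun x => G x τ) (hGx τ) _ (fun x hx => hGb x τ hx hτ))
    refine this.trans (le_of_eq ?_)
    ring
  -- the bound for large `Λ`
  have hJ1 : 1 < Λ → ‖∫ τ : ℝ, ∫ x : ℝ, G x τ‖ ≤ 4 * CN * M2 * (AA * v1 * l) * (600 / Λ) ^ k := by
    intro hl1
    have hl0 : 0 < Λ := by linarith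
    have hc0 : 0 < |c| := by
      rcases (abs_nonneg c).eq_or_lt with h | h
      · exfalso
        rw [hΛ, ← hc, ← h, mul_zero, zero_div] at hl1
        linarith
      · exact h
    have hMA : 0 ≤ M2 * AA := by positivity
    by_cases hA : ∀ x : ℝ, |x| ≤ 1 / 4 → 1 / 8 ≤ |b.1 0 0 - c * x|
    · have hin : ∀ τ, |τ| ≤ l → ‖∫ x : ℝ, G x τ‖ ≤ CN * (v1 - -v1) * (M2 * AA) * (m / (R * |c| / 240)) ^ k := by
        intro τ hτ
        have hτ4 : |τ| ≤ 1 / 4 := hτ.trans hl'
        rw [OVD_int v1 hv1.le _ (hGx τ), hG]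
        refine hN (fun x => ga c1 c2 b x τ) (fun x => R * Real.log (Dk b x τ)) (-v1) v1 (M2 * AA) m (R * |c| / 240) (by linarith)
          (gx τ) (contDiff_const.mul (hsx τ).2.2) (fun x hx => abs_le.1 (gs x τ hx).1) hm (by positivity) hMA ?_ ?_ ?_
        · intro y hy
          have hy1 : |y| ≤ 1 / 4 := (abs_le.2 hy).trans hv1'
          obtain ⟨b1, b2, -, b5, b6, -⟩ := hbox y τ hy1 hτ4
          have hder : deriv (fun x => R * Real.log (Dk b x τ)) y = R * deriv (fun x => Real.log (Dk b x τ)) y :=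
            deriv_const_mul _ ((hsx τ).2.2.differentiable (by simp) y)
          rw [hder, b6, ← hc]
          have e : R * (-2 * c * (b.1 0 0 - c * y) / Dk b y τ) = -(2 * R * c * (b.1 0 0 - c * y) / Dk b y τ) := by ring
          rw [e, abs_neg, abs_div, abs_mul, abs_mul, abs_of_pos (hD y τ), abs_of_pos (by positivity : 0 < 2 * R),
            le_div_iff₀ (hD y τ)]
          have h1 := hA y hy1
          calc R * |c| / 240 * Dk b y τ ≤ R * |c| / 240 * 60 := by gcongr
            _ = 2 * R * |c| * (1 / 8) := by ring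
            _ ≤ 2 * R * |c| * |b.1 0 0 - c * y| := by gcongr
        · intro n hn2 hnk y hy
          have hy1 : |y| ≤ 1 / 4 := (abs_le.2 hy).trans hv1'
          obtain ⟨-, -, -, b5, -, -⟩ := hbox y τ hy1 hτ4
          have h1 := (b5 n (by omega) hnk).1
          rw [← hc] at h1
          have h2 : iteratedDeriv n (fun x => R * Real.log (Dk b x τ)) y = R * iteratedDeriv n (fun x => Real.log (Dk b x τ)) y := by
            rw [iteratedDeriv_const_mul_field]
          rw [h2, abs_mul, abs_of_pos hR0]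
          calc R * |iteratedDeriv n (fun x => Real.log (Dk b x τ)) y| ≤ R * (M1 * |c|) := by gcongr
            _ = 240 * M1 * (R * |c| / 240) := by ring
        · intro n hn y hy
          have hy1 : |y| ≤ 1 / 4 := (abs_le.2 hy).trans hv1'
          exact (gb y τ hy1 hτ4 n hn).1
      have := OVD_out l hl.le (fun τ => ∫ x : ℝ, G x τ) hinner _ hin
      refine this.trans ?_
      have e1 : m / (R * |c| / 240) = 240 / Λ := by
        rw [hΛ, ← hc]
        field_simp
      rw [e1]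
      have h3 : (240 / Λ) ^ k ≤ (600 / Λ) ^ k := by gcongr; norm_num
      calc CN * (v1 - -v1) * (M2 * AA) * (240 / Λ) ^ k * (2 * l) = 4 * CN * M2 * (AA * v1 * l) * (240 / Λ) ^ k := by ring
        _ ≤ 4 * CN * M2 * (AA * v1 * l) * (600 / Λ) ^ k := by gcongr
    · push Not at hA
      obtain ⟨x0, hx0, hx0'⟩ := hA
      have hcb : 1 / 2 ≤ |c| := by
        by_contra hlt
        push Not at hlt
        refine h0 ?_
        have hz : ∀ τ x, G x τ = 0 := by
          intro τ x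
          by_cases hx : v1 < |x|
          · exact hGx τ x hx
          by_cases hτ : l < |τ|
          · exact hGτ x τ hτ
          push Not at hx hτ
          rw [hG]
          simp only
          rw [hc] at hx0' hlt
          unfold ga
          rw [OVD_c (f := fun z => conj (c2 z)) (fun z hz => (hT2.2 z (fun h => hz (by simp [h]))).2) b hD x0 hx0 hx0' hlt x τ
            (hx.trans hv1') (hτ.trans hl')]
          simp
        rw [hform']
        simp [hz]
      have hcont : Continuous (Function.uncurry fun τ x => G x τ) := by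
        rw [hG]
        have hDc : Continuous fun p : ℝ × ℝ => Dk b p.2 p.1 := by
          unfold Dk
          fun_prop
        have h1 : Continuous fun p : ℝ × ℝ => amk (fun z => conj (c2 z)) b p.2 p.1 := by
          unfold amk
          refine Continuous.mul ?_ ?_
          · refine Complex.continuous_conj.comp ?_
            refine (CV1_cont (1 / 4) _ hT2).comp ?_
            refine (continuous_const_smul _).comp ?_
            exact CV1_ptcont.comp (Continuous.prodMk (by fun_prop) (by fun_prop))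
          · refine Complex.continuous_ofReal.comp ?_
            exact hDc.rpow_const fun p => Or.inl (hD _ _).ne'
        have h2 : Continuous fun p : ℝ × ℝ => Real.log (Dk b p.2 p.1) := hDc.log fun p => (hD _ _).ne'
        have h3 : Continuous fun p : ℝ × ℝ => cc c1 p.2 p.1 := by
          refine (CV1_cont (1 / 4) _ hT1).comp ?_
          exact CV1_ptcont.comp (Continuous.prodMk (by fun_prop) (by fun_prop))
        show Continuous fun p : ℝ × ℝ => cc c1 p.2 p.1 * amk (fun z => conj (c2 z)) b p.2 p.1 *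
          Complex.exp (((R * Real.log (Dk b p.2 p.1) : ℝ) : ℂ) * Complex.I)
        fun_prop
      have hsupp : HasCompactSupport (Function.uncurry fun τ x => G x τ) := by
        refine HasCompactSupport.intro ((isCompact_Icc (a := -l) (b := l)).prod (isCompact_Icc (a := -v1) (b := v1))) ?_
        rintro ⟨τ, x⟩ hp
        show G x τ = 0
        by_cases hx : v1 < |x|
        · exact hGx τ x hx
        by_cases hτ : l < |τ|
        · exact hGτ x τ hτ
        push Not at hx hτ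
        refine absurd ?_ hp
        exact ⟨abs_le.1 hτ, abs_le.1 hx⟩
      have hswap : ∫ τ : ℝ, ∫ x : ℝ, G x τ = ∫ x : ℝ, ∫ τ : ℝ, G x τ :=
        integral_integral_swap (hcont.integrable_of_hasCompactSupport hsupp)
      rw [hswap]
      have hin : ∀ x, |x| ≤ v1 → ‖∫ τ : ℝ, G x τ‖ ≤ CN * (l - -l) * (M2 * AA) * (m / (R / 200)) ^ k := by
        intro x hx
        have hx4 : |x| ≤ 1 / 4 := hx.trans hv1'
        rw [OVD_int l hl.le _ (hGτ x), hG]
        refine hN (fun τ => ga c1 c2 b x τ) (fun τ => R * Real.log (Dk b x τ)) (-l) l (M2 * AA) m (R / 200) (by linarith)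
          (gt x) (contDiff_const.mul (hst x).2.2) (fun τ hτ => abs_le.1 (gs x τ hτ).2) hm (by positivity) hMA ?_ ?_ ?_
        · intro y hy
          have hy1 : |y| ≤ 1 / 4 := (abs_le.2 hy).trans hl'
          obtain ⟨b1, b2, -, b5, -, b7⟩ := hbox x y hx4 hy1
          have hder : deriv (fun τ => R * Real.log (Dk b x τ)) y = R * deriv (fun τ => Real.log (Dk b x τ)) y :=
            deriv_const_mul _ ((hst x).2.2.differentiable (by simp) y)
          rw [hder, b7, ← hc, abs_of_nonneg (by have := hD x y; positivity), ← mul_div_assoc, le_div_iff₀ (hD _ _)]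
          have h1 : 1 / 4 ≤ c ^ 2 := by
            rw [← sq_abs]
            nlinarith
          have h2 : 0.606 ≤ Real.exp (2 * y) := by
            refine OVD_exp'.le.trans (Real.exp_le_exp.2 ?_)
            obtain ⟨h4, h5⟩ := abs_le.1 hy1
            linarith
          have h3 : 1 / 4 * 0.606 ≤ c ^ 2 * Real.exp (2 * y) := mul_le_mul h1 h2 (by norm_num) (by positivity)
          have h4 : R / 200 * Dk b x y ≤ R / 200 * 60 := by gcongr
          norm_num at h3
          nlinarith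
        · intro n hn2 hnk y hy
          have hy1 : |y| ≤ 1 / 4 := (abs_le.2 hy).trans hl'
          obtain ⟨-, -, -, b5, -, -⟩ := hbox x y hx4 hy1
          have h1 := (b5 n (by omega) hnk).2
          have h2 : iteratedDeriv n (fun τ => R * Real.log (Dk b x τ)) y = R * iteratedDeriv n (fun τ => Real.log (Dk b x τ)) y := by
            rw [iteratedDeriv_const_mul_field]
          rw [h2, abs_mul, abs_of_pos hR0]
          calc R * |iteratedDeriv n (fun τ => Real.log (Dk b x τ)) y| ≤ R * M1 := by gcongr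
            _ = 200 * M1 * (R / 200) := by ring
            _ ≤ 240 * M1 * (R / 200) := by gcongr; norm_num
        · intro n hn y hy
          have hy1 : |y| ≤ 1 / 4 := (abs_le.2 hy).trans hl'
          exact (gb x y hx4 hy1 n hn).2
      have := OVD_out v1 hv1.le (fun x => ∫ τ : ℝ, G x τ) hinner' _ hin
      refine this.trans ?_
      have hc3 : |c| ≤ 3 := by rw [hc]; exact hE 1 0
      have e1 : m / (R / 200) ≤ 600 / Λ := by
        have hΛ3 : Λ ≤ 3 * R / m := by
          rw [hΛ, ← hc]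
          have h9 : R * |c| ≤ 3 * R := by nlinarith
          exact div_le_div_of_nonneg_right h9 hm0.le
        have h5 : m / (R / 200) = 600 / (3 * R / m) := by
          field_simp
          norm_num
        rw [h5]
        gcongr
      have h3 : (m / (R / 200)) ^ k ≤ (600 / Λ) ^ k := pow_le_pow_left₀ (by positivity) e1 k
      calc CN * (l - -l) * (M2 * AA) * (m / (R / 200)) ^ k * (2 * v1) = 4 * CN * M2 * (AA * v1 * l) * (m / (R / 200)) ^ k := by ring
        _ ≤ 4 * CN * M2 * (AA * v1 * l) * (600 / Λ) ^ k := by gcongr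
  -- conclusion
  have hX : 0 ≤ AA * v1 * l := by positivity
  rw [hform', le_div_iff₀ (by positivity)]
  by_cases hl1 : 1 < Λ
  · have h1 := hJ1 hl1
    have hl0 : 0 < Λ := by linarith
    have h2 : (1 + Λ) ^ k ≤ (2 * Λ) ^ k := pow_le_pow_left₀ (by positivity) (by linarith) k
    calc ‖∫ τ : ℝ, ∫ x : ℝ, G x τ‖ * (1 + Λ) ^ k ≤ (4 * CN * M2 * (AA * v1 * l) * (600 / Λ) ^ k) * (2 * Λ) ^ k := by gcongr
      _ = 4 * CN * M2 * (AA * v1 * l) * ((600 / Λ) ^ k * (2 * Λ) ^ k) := by ring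
      _ = 4 * CN * M2 * (AA * v1 * l) * ((600 / Λ) * (2 * Λ)) ^ k := by rw [← mul_pow]
      _ = 4 * CN * M2 * 1200 ^ k * (AA * v1 * l) := by
          rw [show 600 / Λ * (2 * Λ) = 1200 by field_simp; norm_num]
          ring
      _ ≤ K * (AA * v1 * l) := by
          gcongr
          rw [hKdef]
          have : 0 < 4 * M2 * 2 ^ k := by positivity
          linarith
  · push Not at hl1
    have h2 : (1 + Λ) ^ k ≤ 2 ^ k := pow_le_pow_left₀ (by positivity) (by linarith) k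
    calc ‖∫ τ : ℝ, ∫ x : ℝ, G x τ‖ * (1 + Λ) ^ k ≤ (4 * M2 * (AA * v1 * l)) * 2 ^ k := by gcongr
      _ = 4 * M2 * 2 ^ k * (AA * v1 * l) := by ring
      _ ≤ K * (AA * v1 * l) := by
          gcongr
          rw [hKdef]
          have : 0 < 4 * CN * M2 * 1200 ^ k := by positivity
          linarith

end Pool.Agent.RPQ
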